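import Pool.Agent.Y910.F.Stm3
import Pool.Agent.Y348.FC.PLACE

/-!
Project FC part 3, job FT-PL: the residue of `β / α` at the unique place at infinity, even version.
(Adaptation of `Pool.Agent.Y662.FK.PL2`.)
-/

open Polynomial IntermediateField

set_option autoImplicit false

namespace Pool.Agent.Y79.FT

theorem exists_signs {K Om : Type} [Field K] [Field Om] [Algebra K Om] {d : ℕ} {t : Fin d → Om}
    (h : Pool.Agent.Y910.F.HasFlips (K := K) t) (ε : Fin d → ℤ) (hε : ∀ i, ε i = 1 ∨ ε i = -1) :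
    ∃ σ : Om ≃ₐ[K] Om, ∀ j, σ (t j) = (ε j : Om) * t j := by
  classical
  have key : ∀ J : Finset (Fin d), ∃ σ : Om ≃ₐ[K] Om,
      ∀ j, σ (t j) = (if j ∈ J then (ε j : Om) else 1) * t j := by
    intro J
    induction J using Finset.induction_on with
    | empty => exact ⟨AlgEquiv.refl, fun j => by simp⟩
    | insert i J hi ih =>
      obtain ⟨σ, hσ⟩ := ih
      rcases hε i with h1 | h1
      · refine ⟨σ, fun j => ?_⟩
        rw [hσ j]
        by_cases hj : j = i
        · subst hj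
          simp [hi, h1]
        · simp [Finset.mem_insert, hj]
      · obtain ⟨τ, hτ1, hτ2⟩ := h i
        refine ⟨σ.trans τ, fun j => ?_⟩
        rw [AlgEquiv.trans_apply, hσ j]
        by_cases hj : j = i
        · subst hj
          simp [hi, hτ1, h1]
        · by_cases hJ : j ∈ J
          · simp [Finset.mem_insert, hJ, hτ2 j hj]
          · simp [Finset.mem_insert, hJ, hj, hτ2 j hj]
  obtain ⟨σ, hσ⟩ := key Finset.univ
  exact ⟨σ, fun j => by rw [hσ j, if_pos (Finset.mem_univ j)]⟩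

theorem exists_rho {g : ℚ[X]} (hgi : Irreducible g) (η : ℝ) (hη : aeval η g = 0)
    (r : AdjoinRoot g) :
    ∃ ρ ∈ ℚ⟮η⟯, eval₂ (AdjoinRoot.of g) r (minpoly ℚ ρ) = 0 := by
  haveI : Fact (Irreducible g) := ⟨hgi⟩
  let lam : AdjoinRoot g →+* ℝ := AdjoinRoot.lift (algebraMap ℚ ℝ) η (by rwa [← aeval_def])
  refine ⟨lam r, ?_, ?_⟩
  · obtain ⟨p, rfl⟩ := AdjoinRoot.mk_surjective r
    have h1 : lam (AdjoinRoot.mk g p) = aeval η p := by
      show AdjoinRoot.lift (algebraMap ℚ ℝ) η _ (AdjoinRoot.mk g p) = _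
      rw [AdjoinRoot.lift_mk, aeval_def]
    rw [h1]
    have h2 : aeval η p = ((aeval (AdjoinSimple.gen ℚ η) p : ℚ⟮η⟯) : ℝ) := by
      exact Polynomial.aeval_algHom_apply (ℚ⟮η⟯.val) (AdjoinSimple.gen ℚ η) p
    rw [h2]
    exact (aeval (AdjoinSimple.gen ℚ η) p : ℚ⟮η⟯).2
  · have h1 : lam (eval₂ (AdjoinRoot.of g) r (minpoly ℚ (lam r))) = 0 := by
      rw [hom_eval₂]
      have h2 : lam.comp (AdjoinRoot.of g) = algebraMap ℚ ℝ := Subsingleton.elim _ _
      rw [h2, ← aeval_def]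
      exact minpoly.aeval ℚ _
    exact (map_eq_zero lam).1 h1

theorem done : Pool.Agent.Y910.F.StPL3 := by
  intro K Ω _ _ _ _ _ _ d θ u t hu ht hfl L _ _ ψ α β hα hβ A hA g hg hgi hres η hη
  classical
  have : IsAlgClosed Ω := IsAlgClosure.isAlgClosed K
  obtain ⟨W, hW1, hW2⟩ := Pool.Agent.Y348.FC.place K Ω
  let ι : ℂ[X] →+* Ω := (algebraMap K Ω).comp (algebraMap ℂ[X] K)
  let cc : ℂ →+* Ω := ι.comp C
  set x : Ω := algebraMap K Ω (algebraMap ℂ[X] K X) with hx
  have hx0 : x ≠ 0 := by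
    intro h
    rw [h] at hW2
    exact hW2 W.zero_mem
  have hxv : W.valuation x⁻¹ < 1 :=
    W.mem_nonunits_iff.1 (W.inv_mem_nonunits_iff.2 (Or.inr hW2))
  obtain ⟨τ, hτ⟩ := IsAlgClosed.exists_pow_nat_eq x (n := 2) two_pos
  have hτ0 : τ ≠ 0 := by
    rintro rfl
    exact hx0 (by rw [← hτ]; simp)
  have hccv : ∀ z : ℂ, W.valuation (cc z) ≤ 1 := fun z => (W.valuation_le_one_iff _).2 (hW1 z)
  have hnear : ∀ i, ∃ c : ℂ, c ^ 2 = u i ∧ W.valuation (t i / τ - cc c) < 1 := by
    intro i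
    obtain ⟨dd, hdd⟩ := IsAlgClosed.exists_pow_nat_eq (u i) (n := 2) two_pos
    have h2 : t i ^ 2 = cc (u i) * (x - cc (θ i)) := by
      rw [ht i, map_mul, map_mul, map_sub, map_sub]
      rfl
    have h3 : cc dd ^ 2 = cc (u i) := by rw [← map_pow, hdd]
    have h1 : (t i / τ - cc dd) * (t i / τ + cc dd) = -(cc (u i) * cc (θ i)) * x⁻¹ := by
      have h4 : (t i / τ - cc dd) * (t i / τ + cc dd) = t i ^ 2 / τ ^ 2 - cc dd ^ 2 := by ring
      rw [h4, h3, hτ, h2]
      field_simp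
      ring
    by_cases h4 : W.valuation (t i / τ - cc dd) < 1
    · exact ⟨dd, hdd, h4⟩
    · refine ⟨-dd, by rw [neg_sq, hdd], ?_⟩
      rw [map_neg, sub_neg_eq_add]
      by_contra h5
      have h6 := one_le_mul_of_one_le_of_one_le (not_lt.1 h4) (not_lt.1 h5)
      rw [← map_mul, h1, map_mul] at h6
      have h7 : W.valuation (-(cc (u i) * cc (θ i))) ≤ 1 := by
        rw [Valuation.map_neg, map_mul]
        exact mul_le_one' (hccv _) (hccv _)
      have h8 : W.valuation (-(cc (u i) * cc (θ i))) * W.valuation x⁻¹ < 1 :=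
        mul_lt_one_of_nonneg_of_lt_one_right h7 zero_le hxv
      exact absurd h6 (not_le.2 h8)
  choose c hc1 hc2 using hnear
  -- the residue field
  let e0 : ℂ →+* W := cc.codRestrict W hW1
  let ρ : W →+* IsLocalRing.ResidueField W := IsLocalRing.residue W
  have hsm : ∀ i, t i / τ ∈ W := by
    intro i
    have h1 : t i / τ = (t i / τ - cc (c i)) + cc (c i) := by ring
    rw [h1]
    exact W.add_mem _ _ ((W.valuation_le_one_iff _).1 (hc2 i).le) (hW1 _)
  let s : Fin d → W := fun i => ⟨t i / τ, hsm i⟩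
  have hs : ∀ i, ρ (s i) = (ρ.comp e0) (c i) := by
    intro i
    have h1 : s i - e0 (c i) ∈ IsLocalRing.maximalIdeal W := by
      rw [W.valuation_lt_one_iff]
      exact hc2 i
    exact (Ideal.Quotient.eq).2 h1
  have hinj : Function.Injective (ρ.comp e0) := (ρ.comp e0).injective
  -- the pull backs
  have hAσ : ∀ σ : Ω ≃ₐ[K] Ω, W.comap ((σ : Ω →+* Ω).comp ψ) = A := by
    intro σ
    rw [← hA]
    refine ⟨fun q => ?_, fun h => ?_⟩
    · rw [ValuationSubring.mem_comap]
      have h1 : ((σ : Ω →+* Ω).comp ψ) (algebraMap ℚ L q) = cc (algebraMap ℚ ℂ q) := by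
        have h2 : (((σ : Ω →+* Ω).comp ψ).comp (algebraMap ℚ L)) = cc.comp (algebraMap ℚ ℂ) :=
          Subsingleton.elim _ _
        exact congrArg (fun f => f q) h2
      rw [h1]
      exact hW1 _
    · have h1 := h.1
      rw [ValuationSubring.mem_comap] at h1
      apply hW2
      have h2 : ((σ : Ω →+* Ω).comp ψ) α = x := by
        show σ (ψ α) = x
        rw [hα]
        exact σ.commutes _
      rwa [h2] at h1
  have hAσ' : ∀ (σ : Ω ≃ₐ[K] Ω) (z : L), z ∈ A ↔ σ (ψ z) ∈ W := by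
    intro σ z
    rw [← hAσ σ, ValuationSubring.mem_comap]
    rfl
  have hsum : (∑ i, t i) / τ = ((∑ i, s i : W) : Ω) := by
    rw [Finset.sum_div]
    simp [s]
  have hφ1 : ψ (β / α) = ((∑ i, t i) / τ) ^ 2 := by
    rw [map_div₀, hα, hβ, div_pow, hτ]
  have hφA : β / α ∈ A := by
    rw [hAσ' AlgEquiv.refl]
    show ψ (β / α) ∈ W
    rw [hφ1, hsum]
    exact W.toSubring.pow_mem (∑ i, s i : W).2 2
  obtain ⟨E⟩ := hres
  obtain ⟨r, hr, hm⟩ := exists_rho hgi η hη (E (IsLocalRing.residue A ⟨β / α, hφA⟩))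
  set m := minpoly ℚ r with hmdef
  have hroot : ∀ (σ : Ω ≃ₐ[K] Ω) (w : W) (y : ℂ),
      (σ (∑ i, t i)) / τ = (w : Ω) → ρ w = (ρ.comp e0) y →
      (m.map (algebraMap ℚ ℂ)).eval (y ^ 2) = 0 := by
    intro σ w y hw hy
    let f : A →+* W := (((σ : Ω →+* Ω).comp ψ).comp A.subtype).codRestrict W
      (fun a => (hAσ' σ a.1).1 a.2)
    have hfl : IsLocalHom f := by
      constructor
      intro a ha
      obtain ⟨b, hb⟩ := ha.exists_right_inv
      have h1 : σ (ψ (a : L)) * (b : Ω) = 1 := congrArg Subtype.val hb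
      have h2 : (a : L) ≠ 0 := by
        intro h
        rw [h, map_zero, map_zero, zero_mul] at h1
        exact zero_ne_one h1
      have h3 : (a : L)⁻¹ ∈ A := by
        rw [hAσ' σ, map_inv₀, map_inv₀, inv_eq_of_mul_eq_one_right h1]
        exact b.2
      refine IsUnit.of_mul_eq_one (⟨_, h3⟩ : A) ?_
      apply Subtype.ext
      exact mul_inv_cancel₀ h2
    let G : AdjoinRoot g →+* IsLocalRing.ResidueField W :=
      (IsLocalRing.ResidueField.map f).comp E.symm.toRingHom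
    have h4 : G (E (IsLocalRing.residue A ⟨β / α, hφA⟩)) = (ρ.comp e0) (y ^ 2) := by
      have h5 : G (E (IsLocalRing.residue A ⟨β / α, hφA⟩)) =
          IsLocalRing.ResidueField.map f (IsLocalRing.residue A ⟨β / α, hφA⟩) := by
        show IsLocalRing.ResidueField.map f (E.symm (E _)) = _
        rw [E.symm_apply_apply]
      rw [h5, IsLocalRing.ResidueField.map_residue]
      have h6 : f ⟨β / α, hφA⟩ = w ^ 2 := by
        apply Subtype.ext
        show σ (ψ (β / α)) = (w : Ω) ^ 2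
        rw [← hw, map_div₀, hα, hβ, map_div₀, map_pow, div_pow, hτ]
        congr 1
        exact σ.commutes _
      rw [h6, map_pow, map_pow]
      exact congrArg (fun z => z ^ 2) hy
    have h7 := congrArg G hm
    rw [map_zero, hom_eval₂, h4] at h7
    have h8 : G.comp (AdjoinRoot.of g) = (ρ.comp e0).comp (algebraMap ℚ ℂ) :=
      Subsingleton.elim _ _
    rw [h8, ← hom_eval₂] at h7
    rw [eval_map]
    exact hinj (by rw [h7, map_zero])
  refine ⟨r, hr, c, hc1, fun ε hε => ?_⟩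
  obtain ⟨σ, hσ⟩ := exists_signs hfl ε hε
  have hfin := hroot σ (∑ j, (ε j : W) * s j) (∑ j, (ε j : ℂ) * c j) ?_ ?_
  · rw [eval_map, ← aeval_def] at hfin
    exact hfin
  · rw [map_sum, Finset.sum_div]
    push_cast
    refine Finset.sum_congr rfl fun j _ => ?_
    rw [hσ j, mul_div_assoc]
  · rw [map_sum, map_sum]
    refine Finset.sum_congr rfl fun j _ => ?_
    rw [map_mul, map_mul, hs, map_intCast, map_intCast]

end Pool.Agent.Y79.FT
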